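import Pool.Agent.MP_187b32_an.En.Tr
import Pool.Agent.MP_187b32_an.En.Asm
import Pool.Agent.MP_187b32_an.En.Et
import Pool.Agent.MP_187b32_an.En.Interp
import Pool.Agent.MP_187b32_an.Gain.Main
import Pool.Agent.MP_187b32_an.Gain.Gam
import Pool.Agent.MP_187b32_an.Lin.Main
import Pool.Agent.MP_187b32_an.KK.Main
import Pool.Agent.MP_187b32_an.Solver.Final
import Pool.Agent.MP_187b32_an.Corr2.Main
import Pool.Agent.MP_187b32_an.Corr.VCut
import Pool.Agent.MP_187b32_an.Alg.Need
import Pool.Agent.MP_187b32_an.Alg.Sob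
import Pool.Agent.MP_187b32_an.Coll.Main
import Pool.Agent.MP_187b32_an.Coll.Fin
import Pool.Agent.MP_187b32_an.Pic.LimC
import Pool.Agent.MP_187b32_an.Bg.Final
import Pool.Agent.MP_187b32_an.En.Vel
import Pool.Agent.MP_187b32_an.Pos.Final
import Pool.Agent.MP_187b32_an.Pic.Main

/-!
Assembly of the modules.
-/

set_option autoImplicit false

namespace Pool.Agent.MP_187b32_an

theorem m4_all : M4Stmt := m4_of vStmt etStmt interp (trStmt_of vStmt) Gain.gainStmt

theorem m4h_all : M4hStmt := m4h_of etStmt interp (trStmt_of vStmt) vStmt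

theorem m5_all : M5Stmt := Lin.m5 Solver.m3h m4h_all

theorem iter2_all : IterStmt2 :=
  Pic.iterStmt2 algStmt m4_all Gain.gamStmt sobStmt Corr2.corrStmt KK.kStmt Solver.m3k Solver.m3h
    m5_all Corr.vcut

theorem picard_all : PicardStmt := picard_of Coll.collStmt iter2_all.iter limit

/-- Everything follows from the existence of the profile. -/
theorem main_of_m1 (h1 : M1Stmt) : Stmt.Main :=
  main_of h1 bgStmt picard_all Pos.posStmt Coll.finalStmt

end Pool.Agent.MP_187b32_an
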